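import Pool.Agent.H454Z.WC.Main

/-!
MP_245269_an, Q1: the answer is no, for every `n`.

`B = ℝ × ℝ × C([0,1])^(2n+2)`; `L⁰` multiplies the functions by `-y³`, and `L` moves the first
coordinate through the `2n+2` copies of `C([0,1])` into the second coordinate. The only non-zero
correlation function is integrable in the relative times but decays slowly, which produces a term
of order strictly between `λ^(2n+1)` and `λ^(2n+2)`.
-/

set_option autoImplicit false

namespace Pool.Agent.Results.MP_245269_an.ANoExpansion

open Filter Topology Pool.Agent.H454Z.WC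

/-- For every `n` there are a Banach space `B`, a finite rank projection `P` and bounded
operators `L0`, `L` which satisfy all the hypotheses (the integrability even for
`k = 1, …, 2n+2`, and for all `k` the integrability in the times `t₂, …, t_k` uniformly in `t₁`),
and for which the expansion with error `O(λ^(2n+2))` fails for all polynomial `r` and `G`. -/
theorem result (n : ℕ) :
    ∃ (B : Type) (_ : NormedAddCommGroup B) (_ : NormedSpace ℝ B) (_ : CompleteSpace B)
      (P L0 L : B →L[ℝ] B),
      P * P = P ∧ FiniteDimensional ℝ (PB P) ∧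
      (∀ t, U L0 t * P = P * U L0 t) ∧
      P * L * P = 0 ∧
      (∀ t, IsUnit (U L0 t)) ∧
      (∀ k, 1 ≤ k → k ≤ 2 * n + 2 → ∀ t, iterInt k t (corrNorm P L0 L) < ⊤) ∧
      (∀ k t₁, iterInt k t₁ (fun l => corrNorm P L0 L (t₁ :: l)) ≤ 1) ∧
      ¬ HasExpansion P L0 L n := by
  refine ⟨Sp (2 * n + 1), inferInstance, inferInstance, inferInstance, P _, L0 _, L _, P_mul_P,
    finite_range, U0_comm, P_L_P, isUnit_U _, ?_, inner_le_one, ?_⟩
  · intro k h1 h2 t
    exact (full_eq_zero (N := 2 * n + 1) k h1 h2 t).trans_lt ENNReal.zero_lt_top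
  · rintro ⟨m, m', R, G, h⟩
    have := finite_range (N := 2 * n + 1)
    have := FiniteDimensional.complete ℝ
      (LinearMap.range (P (2 * n + 1) : Sp (2 * n + 1) →ₗ[ℝ] Sp (2 * n + 1)))
    exact no_expansion (2 * n + 1) (incl (P _)) ⟨e1 _, e1 _, rfl⟩ rfl R G (h 1 one_pos)

end Pool.Agent.Results.MP_245269_an.ANoExpansion
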